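import Mathlib

/-!
# A C*-algebra with an approximate identity of projections but no increasing one (library)

`K` is a set of cardinality at least the second uncountable cardinal (here: the set of all sets of
reals). The algebra consists of bounded functions on `K × K × ℕ` with values in a C*-algebra `M`
(the `2 × 2` matrices) which contains projections `E` and `P n`, `P n → E`, such that no `P n` is
comparable with `E`.
-/

set_option autoImplicit false

namespace Pool.Agent.Q255.AI

open Filter Topology Classical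
open scoped BoundedContinuousFunction

/-- The index set `K`. -/
abbrev K : Type := Set ℝ

/-- The points `(a, b, n)`. -/
@[ext] structure Pt : Type where
  a : K
  b : K
  n : ℕ

instance : TopologicalSpace Pt := ⊥
instance : DiscreteTopology Pt := ⟨rfl⟩

section proj

variable {M : Type} [NonUnitalCStarAlgebra M]

/-- projections -/
def IsP (p : M) : Prop := p * p = p ∧ star p = p

theorem IsP.norm_sq {p : M} (h : IsP p) : ‖p‖ * ‖p‖ = ‖p‖ := by
  have h1 := CStarRing.norm_star_mul_self (x := p)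
  rw [h.2, h.1] at h1
  exact h1.symm

theorem IsP.norm_le {p : M} (h : IsP p) : ‖p‖ ≤ 1 := by
  have h1 := h.norm_sq
  by_contra hcon
  push Not at hcon
  nlinarith

theorem idem_small {p : M} (h : p * p = p) (h1 : ‖p‖ < 1) : p = 0 := by
  have h2 : ‖p‖ ≤ ‖p‖ * ‖p‖ := by
    calc ‖p‖ = ‖p * p‖ := by rw [h]
      _ ≤ _ := norm_mul_le _ _
  have h3 : ‖p‖ = 0 := by
    have := norm_nonneg p
    by_contra hcon
    have : 0 < ‖p‖ := lt_of_le_of_ne this (Ne.symm hcon)
    nlinarith
  exact norm_eq_zero.1 h3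

theorem isP_zero : IsP (0 : M) := ⟨by simp, by simp⟩

/-- `q` close to `D q D` and almost a unit for `D` is `D`. -/
theorem eq_of_near {D q : M} (hD : IsP D) (hD0 : D ≠ 0) (hq : IsP q) (h1 : ‖q * D - D‖ < 1 / 2)
    (h2 : ∀ k : ℕ, ‖q - D * q * D‖ ≤ 1 / ((k : ℝ) + 2) ∨ ‖q‖ ≤ 1 / ((k : ℝ) + 2)) : q = D := by
  have hk : ∀ k : ℕ, 1 / ((k : ℝ) + 2) ≤ 1 / 2 := fun k =>
    one_div_le_one_div_of_le (by norm_num) (by linarith [(Nat.cast_nonneg k : (0 : ℝ) ≤ k)])
  have hn : ¬ ‖q‖ ≤ 1 / 2 := by
    intro h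
    have hq0 : q = 0 := idem_small hq.1 (by linarith)
    rw [hq0] at h1
    simp only [zero_mul, zero_sub, norm_neg] at h1
    exact hD0 (idem_small hD.1 (by linarith))
  have h3 : ∀ k : ℕ, ‖q - D * q * D‖ ≤ 1 / ((k : ℝ) + 2) := fun k =>
    (h2 k).resolve_right fun h => hn (h.trans (hk k))
  have h4 : q = D * q * D := by
    have h5 : ‖q - D * q * D‖ ≤ 0 := by
      refine ge_of_tendsto' (x := atTop) (f := fun k : ℕ => 1 / ((k : ℝ) + 2)) ?_ h3
      have := tendsto_one_div_add_atTop_nhds_zero_nat (𝕜 := ℝ)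
      have h6 := this.comp (tendsto_add_atTop_nat 1)
      refine h6.congr fun k => ?_
      simp only [Function.comp_apply]
      push_cast
      ring
    have h6 := norm_nonneg (q - D * q * D)
    exact sub_eq_zero.1 (norm_eq_zero.1 (le_antisymm h5 h6))
  have h5 : D * q = q := by
    conv_lhs => rw [h4]
    rw [mul_assoc D q D, ← mul_assoc D D, hD.1, ← mul_assoc, ← h4]
  have h6 : q * D = q := by
    conv_lhs => rw [h4]
    rw [mul_assoc, hD.1, ← h4]
  rw [h6] at h1
  have h7 : q - D = 0 := by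
    have h8 : (D - q) * (D - q) = D - q := by
      rw [mul_sub, sub_mul, sub_mul, hD.1, hq.1, h5, h6]
      simp
    have h9 : D - q = 0 := idem_small h8 (by rw [norm_sub_rev]; linarith)
    rw [← neg_sub, h9, neg_zero]
  exact sub_eq_zero.1 h7

end proj

section field

variable {M : Type} [CStarAlgebra M]

/-- the data -/
structure Good (E : M) (P : ℕ → M) : Prop where
  hE : IsP E
  hP : ∀ n, IsP (P n)
  lim : Tendsto P atTop (𝓝 E)
  E0 : E ≠ 0
  h1 : ∀ n, P n * E ≠ P n
  h2 : ∀ n, E * P n ≠ E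

variable (E : M) (P : ℕ → M)

/-- the projection at the point `x` for the finite set `F` -/
noncomputable def T (F : Finset K) (x : Pt) : M :=
  if x.a ∈ F then E else if x.b ∈ F then P x.n else 0

/-- the condition which defines the algebra -/
def Q (f : Pt → M) : Prop := ∀ ε : ℝ, 0 < ε → ∃ (F : Finset K) (N : Finset Pt), ∀ x ∉ N,
  ‖f x - T E P F x * f x * T E P F x‖ ≤ ε

variable {E P}

theorem isP_T (h : Good E P) (F : Finset K) (x : Pt) : IsP (T E P F x) := by
  unfold T
  split_ifs
  · exact h.hE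
  · exact h.hP _
  · exact isP_zero

theorem comp_le {t u : M} (ht : IsP t) : ‖t * u * t‖ ≤ ‖u‖ := by
  have h1 := ht.norm_le
  calc ‖t * u * t‖ ≤ ‖t * u‖ * ‖t‖ := norm_mul_le _ _
    _ ≤ (‖t‖ * ‖u‖) * ‖t‖ := mul_le_mul_of_nonneg_right (norm_mul_le _ _) (norm_nonneg _)
    _ ≤ (1 * ‖u‖) * 1 := by
        refine mul_le_mul (mul_le_mul_of_nonneg_right h1 (norm_nonneg _)) h1 (norm_nonneg _)
          (by positivity)
    _ = ‖u‖ := by ring

/-- the points with both coordinates in `F` and `n < m` -/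
def box (F : Finset K) (m : ℕ) : Set Pt := {x | x.a ∈ F ∧ x.b ∈ F ∧ x.n < m}

theorem box_finite (F : Finset K) (m : ℕ) : (box F m).Finite := by
  have h1 : ((F ×ˢ (F ×ˢ Finset.range m)).image fun y : K × (K × ℕ) => Pt.mk y.1 y.2.1 y.2.2 :
      Set Pt).Finite := Finset.finite_toSet _
  refine h1.subset fun x hx => ?_
  simp only [Finset.coe_image, Set.mem_image, Finset.mem_coe, Finset.mem_product,
    Finset.mem_range, Prod.exists]
  exact ⟨x.a, x.b, x.n, ⟨hx.1, hx.2.1, hx.2.2⟩, rfl⟩

/-- comparison of `T F` and `T F'` outside the box -/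
theorem T_cmp (F F' : Finset K) (hF : F ⊆ F') (m : ℕ) (x : Pt) (hx : x ∉ box F' m) :
    T E P F x = T E P F' x ∨ T E P F x = 0 ∨
      (T E P F x = P x.n ∧ T E P F' x = E ∧ m ≤ x.n) := by
  by_cases ha : x.a ∈ F
  · left
    unfold T
    rw [if_pos ha, if_pos (hF ha)]
  · by_cases hb : x.b ∈ F
    · by_cases ha' : x.a ∈ F'
      · right; right
        refine ⟨?_, ?_, ?_⟩
        · unfold T
          rw [if_neg ha, if_pos hb]
        · unfold T
          rw [if_pos ha']
        · by_contra hcon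
          push Not at hcon
          exact hx ⟨ha', hF hb, hcon⟩
      · left
        unfold T
        rw [if_neg ha, if_neg ha', if_pos hb, if_pos (hF hb)]
    · right; left
      unfold T
      rw [if_neg ha, if_neg hb]

theorem exists_m (h : Good E P) (δ : ℝ) (hδ : 0 < δ) : ∃ m : ℕ, ∀ n, m ≤ n → ‖P n - E‖ ≤ δ := by
  have h1 := (tendsto_iff_norm_sub_tendsto_zero.1 h.lim).eventually (gt_mem_nhds hδ)
  obtain ⟨m, hm⟩ := eventually_atTop.1 h1
  exact ⟨m, fun n hn => (hm n hn).le⟩

/-- monotonicity in `F` -/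
theorem Q.mono (h : Good E P) {f : Pt → M} {C : ℝ} (hC : ∀ x, ‖f x‖ ≤ C) (hf : Q E P f) (ε : ℝ)
    (hε : 0 < ε) : ∃ F : Finset K, ∀ F', F ⊆ F' → ∃ N : Finset Pt, ∀ x ∉ N,
      ‖f x - T E P F' x * f x * T E P F' x‖ ≤ ε := by
  obtain ⟨F, N, hN⟩ := hf (ε / 4) (by positivity)
  have hC0 : 0 ≤ C := (norm_nonneg _).trans (hC ⟨∅, ∅, 0⟩)
  obtain ⟨m, hm⟩ := exists_m h (ε / (4 * (C + 1))) (by positivity)
  refine ⟨F, fun F' hF => ⟨N ∪ (box_finite F' m).toFinset, fun x hx => ?_⟩⟩
  rw [Finset.mem_union, not_or] at hx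
  have hx1 := hN x hx.1
  have hx2 : x ∉ box F' m := fun hh => hx.2 ((box_finite F' m).mem_toFinset.2 hh)
  rcases T_cmp (E := E) (P := P) F F' hF m x hx2 with h1 | h1 | ⟨h1, h2, h3⟩
  · rw [← h1]
    linarith
  · rw [h1] at hx1
    simp only [zero_mul, mul_zero, sub_zero] at hx1
    have h2 := comp_le (u := f x) (isP_T h F' x)
    have h3 := norm_sub_le (f x) (T E P F' x * f x * T E P F' x)
    linarith
  · rw [h1] at hx1
    rw [h2]
    have hp := hm x.n h3
    have e : f x - E * f x * E = (f x - P x.n * f x * P x.n) + ((P x.n - E) * f x * P x.n +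
        E * f x * (P x.n - E)) := by
      noncomm_ring
    rw [e]
    have b1 : ‖(P x.n - E) * f x * P x.n‖ ≤ ε / 4 := by
      calc ‖(P x.n - E) * f x * P x.n‖ ≤ ‖(P x.n - E) * f x‖ * ‖P x.n‖ := norm_mul_le _ _
        _ ≤ (‖P x.n - E‖ * ‖f x‖) * 1 := by
            refine mul_le_mul (norm_mul_le _ _) (h.hP _).norm_le (norm_nonneg _) (by positivity)
        _ ≤ (ε / (4 * (C + 1)) * (C + 1)) * 1 := by
            refine mul_le_mul_of_nonneg_right ?_ (by norm_num)
            refine mul_le_mul hp ((hC x).trans (by linarith)) (norm_nonneg _) (by positivity)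
        _ = ε / 4 := by field_simp
    have b2 : ‖E * f x * (P x.n - E)‖ ≤ ε / 4 := by
      calc ‖E * f x * (P x.n - E)‖ ≤ ‖E * f x‖ * ‖P x.n - E‖ := norm_mul_le _ _
        _ ≤ (1 * (C + 1)) * (ε / (4 * (C + 1))) := by
            refine mul_le_mul ?_ hp (norm_nonneg _) (by positivity)
            refine (norm_mul_le _ _).trans ?_
            exact mul_le_mul h.hE.norm_le ((hC x).trans (by linarith)) (norm_nonneg _)
              (by norm_num)
        _ = ε / 4 := by field_simp
    have b3 := norm_add_le (f x - P x.n * f x * P x.n) ((P x.n - E) * f x * P x.n +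
      E * f x * (P x.n - E))
    have b4 := norm_add_le ((P x.n - E) * f x * P x.n) (E * f x * (P x.n - E))
    linarith

/-- The algebra. -/
noncomputable def Alg (E : M) (P : ℕ → M) (h : Good E P) : NonUnitalStarSubalgebra ℂ (Pt →ᵇ M) where
  carrier := {f | Q E P f}
  zero_mem' := by
    intro ε hε
    refine ⟨∅, ∅, fun x _ => ?_⟩
    simp [hε.le]
  add_mem' := by
    intro f g hf hg ε hε
    obtain ⟨F1, h1⟩ := Q.mono h (fun x => f.norm_coe_le_norm x) hf (ε / 2) (by positivity)
    obtain ⟨F2, h2⟩ := Q.mono h (fun x => g.norm_coe_le_norm x) hg (ε / 2) (by positivity)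
    obtain ⟨N1, k1⟩ := h1 (F1 ∪ F2) Finset.subset_union_left
    obtain ⟨N2, k2⟩ := h2 (F1 ∪ F2) Finset.subset_union_right
    refine ⟨F1 ∪ F2, N1 ∪ N2, fun x hx => ?_⟩
    rw [Finset.mem_union, not_or] at hx
    have e1 := k1 x hx.1
    have e2 := k2 x hx.2
    set t := T E P (F1 ∪ F2) x with ht
    have e : (f + g) x - t * (f + g) x * t = (f x - t * f x * t) + (g x - t * g x * t) := by
      rw [BoundedContinuousFunction.add_apply]
      noncomm_ring
    rw [e]
    have := norm_add_le (f x - t * f x * t) (g x - t * g x * t)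
    linarith
  smul_mem' := by
    intro c f hf ε hε
    obtain ⟨F, N, k⟩ := hf (ε / (‖c‖ + 1)) (by positivity)
    refine ⟨F, N, fun x hx => ?_⟩
    have e : (c • f) x - T E P F x * (c • f) x * T E P F x =
        c • (f x - T E P F x * f x * T E P F x) := by
      rw [BoundedContinuousFunction.coe_smul, mul_smul_comm, smul_mul_assoc, smul_sub]
    rw [e, norm_smul]
    calc ‖c‖ * ‖f x - T E P F x * f x * T E P F x‖ ≤ (‖c‖ + 1) * (ε / (‖c‖ + 1)) := by
          refine mul_le_mul (by linarith) (k x hx) (norm_nonneg _) (by positivity)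
      _ = ε := by field_simp
  mul_mem' := by
    intro f g hf hg ε hε
    set C : ℝ := ‖f‖ + ‖g‖ + 1 with hCd
    have hC : 0 < C := by positivity
    obtain ⟨F1, h1⟩ := Q.mono h (fun x => f.norm_coe_le_norm x) hf (ε / (4 * C)) (by positivity)
    obtain ⟨F2, h2⟩ := Q.mono h (fun x => g.norm_coe_le_norm x) hg (ε / (4 * C)) (by positivity)
    obtain ⟨N1, k1⟩ := h1 (F1 ∪ F2) Finset.subset_union_left
    obtain ⟨N2, k2⟩ := h2 (F1 ∪ F2) Finset.subset_union_right
    refine ⟨F1 ∪ F2, N1 ∪ N2, fun x hx => ?_⟩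
    rw [Finset.mem_union, not_or] at hx
    have e1 := k1 x hx.1
    have e2 := k2 x hx.2
    have hT := isP_T h (F1 ∪ F2) x
    set t := T E P (F1 ∪ F2) x with ht
    rw [BoundedContinuousFunction.mul_apply]
    set u := f x with hu
    set v := g x with hv
    have hun : ‖u‖ ≤ C := (f.norm_coe_le_norm x).trans (by linarith [norm_nonneg g])
    have hvn : ‖v‖ ≤ C := (g.norm_coe_le_norm x).trans (by linarith [norm_nonneg f])
    have hw : ‖u * v - (t * u * t) * (t * v * t)‖ ≤ ε / 2 := by
      have e : u * v - (t * u * t) * (t * v * t) = (u - t * u * t) * v +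
          (t * u * t) * (v - t * v * t) := by noncomm_ring
      rw [e]
      have b1 : ‖(u - t * u * t) * v‖ ≤ ε / 4 := by
        calc ‖(u - t * u * t) * v‖ ≤ ‖u - t * u * t‖ * ‖v‖ := norm_mul_le _ _
          _ ≤ (ε / (4 * C)) * C := mul_le_mul e1 hvn (norm_nonneg _) (by positivity)
          _ = ε / 4 := by field_simp
      have b2 : ‖(t * u * t) * (v - t * v * t)‖ ≤ ε / 4 := by
        calc ‖(t * u * t) * (v - t * v * t)‖ ≤ ‖t * u * t‖ * ‖v - t * v * t‖ := norm_mul_le _ _
          _ ≤ C * (ε / (4 * C)) := mul_le_mul ((comp_le hT).trans hun) e2 (norm_nonneg _) hC.le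
          _ = ε / 4 := by field_simp
      have := norm_add_le ((u - t * u * t) * v) ((t * u * t) * (v - t * v * t))
      linarith
    have hz : t * ((t * u * t) * (t * v * t)) * t = (t * u * t) * (t * v * t) := by
      have ht2 := hT.1
      calc t * ((t * u * t) * (t * v * t)) * t = ((t * t) * u * t) * (t * v * (t * t)) := by
            noncomm_ring
        _ = _ := by rw [ht2]
    have e : u * v - t * (u * v) * t = (u * v - (t * u * t) * (t * v * t)) -
        t * (u * v - (t * u * t) * (t * v * t)) * t := by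
      rw [mul_sub t (u * v), sub_mul, hz]
      abel
    rw [e]
    have b3 := norm_sub_le (u * v - (t * u * t) * (t * v * t))
      (t * (u * v - (t * u * t) * (t * v * t)) * t)
    have b4 := comp_le (u := u * v - (t * u * t) * (t * v * t)) hT
    linarith
  star_mem' := by
    intro f hf ε hε
    obtain ⟨F, N, k⟩ := hf ε hε
    refine ⟨F, N, fun x hx => ?_⟩
    have hT := isP_T h F x
    have h1 := k x hx
    rw [← norm_star] at h1
    rw [star_sub, star_mul, star_mul, hT.2, ← mul_assoc] at h1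
    exact h1

theorem isClosed_alg (h : Good E P) : IsClosed (Alg E P h : Set (Pt →ᵇ M)) := by
  refine isClosed_of_closure_subset fun f hf ε hε => ?_
  obtain ⟨g, hg, hfg⟩ := Metric.mem_closure_iff.1 hf (ε / 3) (by positivity)
  obtain ⟨F, N, k⟩ := (show Q E P g from hg) (ε / 3) (by positivity)
  refine ⟨F, N, fun x hx => ?_⟩
  have hT := isP_T h F x
  have h1 := k x hx
  set t := T E P F x with ht
  have h2 : ‖f x - g x‖ ≤ ε / 3 := by
    have h3 := (f - g).norm_coe_le_norm x
    rw [dist_eq_norm] at hfg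
    rw [BoundedContinuousFunction.sub_apply] at h3
    linarith
  have e : f x - t * f x * t = (f x - g x) - t * (f x - g x) * t + (g x - t * g x * t) := by
    noncomm_ring
  rw [e]
  have b1 := norm_add_le ((f x - g x) - t * (f x - g x) * t) (g x - t * g x * t)
  have b2 := norm_sub_le (f x - g x) (t * (f x - g x) * t)
  have b3 := comp_le (u := f x - g x) hT
  linarith

end field

end Pool.Agent.Q255.AI
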