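import Pool.Agent.Q255.AI.A

/-!
# A C*-algebra with an approximate identity of projections but no increasing one (library)
-/

set_option autoImplicit false

namespace Pool.Agent.Q255.AI

open Filter Topology Classical
open scoped BoundedContinuousFunction

section approx

variable {M : Type} [CStarAlgebra M] {E : M} {P : ℕ → M}

/-- the values of the approximate identity -/
noncomputable def ev (E : M) (P : ℕ → M) (i : Finset K × Finset Pt × ℕ) (x : Pt) : M :=
  if x ∈ i.2.1 ∨ x ∈ box i.1 i.2.2 then 1 else T E P i.1 x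

theorem isP_one : IsP (1 : M) := ⟨by simp, by simp⟩

theorem isP_ev (h : Good E P) (i : Finset K × Finset Pt × ℕ) (x : Pt) : IsP (ev E P i x) := by
  unfold ev
  split_ifs
  · exact isP_one
  · exact isP_T h _ _

/-- the approximate identity as bounded functions -/
noncomputable def eb (h : Good E P) (i : Finset K × Finset Pt × ℕ) : Pt →ᵇ M :=
  BoundedContinuousFunction.ofNormedAddCommGroupDiscrete (ev E P i) 1 fun x => (isP_ev h i x).norm_le

theorem eb_apply (h : Good E P) (i : Finset K × Finset Pt × ℕ) (x : Pt) :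
    eb h i x = ev E P i x := rfl

theorem eb_mem (h : Good E P) (i : Finset K × Finset Pt × ℕ) : eb h i ∈ Alg E P h := by
  intro ε hε
  refine ⟨i.1, i.2.1 ∪ (box_finite i.1 i.2.2).toFinset, fun x hx => ?_⟩
  rw [Finset.mem_union, not_or] at hx
  have h1 : eb h i x = T E P i.1 x := by
    rw [eb_apply]
    unfold ev
    rw [if_neg]
    rintro (h2 | h2)
    · exact hx.1 h2
    · exact hx.2 ((box_finite _ _).mem_toFinset.2 h2)
  have hT := isP_T h i.1 x
  rw [h1, hT.1, hT.1, sub_self, norm_zero]
  exact hε.le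

theorem eb_idem (h : Good E P) (i : Finset K × Finset Pt × ℕ) : eb h i * eb h i = eb h i := by
  ext1 x
  rw [BoundedContinuousFunction.mul_apply]
  exact (isP_ev h i x).1

theorem eb_star (h : Good E P) (i : Finset K × Finset Pt × ℕ) : star (eb h i) = eb h i := by
  ext1 x
  rw [BoundedContinuousFunction.star_apply]
  exact (isP_ev h i x).2

theorem tendsto_left (h : Good E P) {f : Pt →ᵇ M} (hf : f ∈ Alg E P h) :
    Tendsto (fun i => eb h i * f) atTop (𝓝 f) := by
  rw [Metric.tendsto_atTop]
  intro ε hε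
  obtain ⟨F, N, k⟩ := (show Q E P f from hf) (ε / 8) (by positivity)
  obtain ⟨m, hm⟩ := exists_m h (ε / (8 * (‖f‖ + 1))) (by positivity)
  refine ⟨(F, N, m), fun i hi => ?_⟩
  obtain ⟨hF, hN, hmi⟩ : F ⊆ i.1 ∧ N ⊆ i.2.1 ∧ m ≤ i.2.2 := ⟨hi.1, hi.2.1, hi.2.2⟩
  rw [dist_eq_norm]
  refine lt_of_le_of_lt ((BoundedContinuousFunction.norm_le (by positivity : 0 ≤ ε / 2)).2
    fun x => ?_) (by linarith)
  rw [BoundedContinuousFunction.sub_apply, BoundedContinuousFunction.mul_apply, eb_apply]
  unfold ev
  split_ifs with hx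
  · rw [one_mul, sub_self, norm_zero]
    positivity
  · rw [not_or] at hx
    have hx1 : x ∉ N := fun hh => hx.1 (hN hh)
    have hk := k x hx1
    have hfx : ‖f x‖ ≤ ‖f‖ + 1 := (f.norm_coe_le_norm x).trans (by linarith)
    set t := T E P F x with ht
    set s := T E P i.1 x with hs
    have hT := isP_T h F x
    have hS := isP_T h i.1 x
    rw [← ht] at hT
    rw [← hs] at hS
    have hst : ‖s * t - t‖ ≤ ε / (8 * (‖f‖ + 1)) * 2 := by
      rcases T_cmp (E := E) (P := P) F i.1 hF i.2.2 x hx.2 with h1 | h1 | ⟨h1, h2, h3⟩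
      · rw [← hs, ← ht] at h1
        rw [← h1, hT.1, sub_self, norm_zero]
        positivity
      · rw [← ht] at h1
        rw [h1, mul_zero, sub_zero, norm_zero]
        positivity
      · rw [← ht] at h1
        rw [← hs] at h2
        have e : s * t - t = E * (P x.n - E) - (P x.n - E) := by
          rw [h1, h2, mul_sub, h.hE.1]
          abel
        rw [e]
        have b1 := hm x.n (hmi.trans h3)
        have b2 : ‖E * (P x.n - E)‖ ≤ ‖P x.n - E‖ := by
          calc ‖E * (P x.n - E)‖ ≤ ‖E‖ * ‖P x.n - E‖ := norm_mul_le _ _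
            _ ≤ 1 * ‖P x.n - E‖ := mul_le_mul_of_nonneg_right h.hE.norm_le (norm_nonneg _)
            _ = _ := one_mul _
        have b3 := norm_sub_le (E * (P x.n - E)) (P x.n - E)
        linarith
    have e : s * f x - f x = s * (f x - t * f x * t) - (f x - t * f x * t) +
        (s * t - t) * (f x * t) := by
      noncomm_ring
    rw [e]
    have b1 : ‖s * (f x - t * f x * t)‖ ≤ ε / 8 := by
      calc ‖s * (f x - t * f x * t)‖ ≤ ‖s‖ * ‖f x - t * f x * t‖ := norm_mul_le _ _
        _ ≤ 1 * (ε / 8) := mul_le_mul hS.norm_le hk (norm_nonneg _) (by norm_num)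
        _ = _ := one_mul _
    have b2 : ‖(s * t - t) * (f x * t)‖ ≤ ε / 4 := by
      calc ‖(s * t - t) * (f x * t)‖ ≤ ‖s * t - t‖ * ‖f x * t‖ := norm_mul_le _ _
        _ ≤ (ε / (8 * (‖f‖ + 1)) * 2) * ((‖f‖ + 1) * 1) := by
            refine mul_le_mul hst ?_ (norm_nonneg _) (by positivity)
            refine (norm_mul_le _ _).trans ?_
            exact mul_le_mul hfx hT.norm_le (norm_nonneg _) (by positivity)
        _ = ε / 4 := by field_simp; ring
    have b3 := norm_add_le (s * (f x - t * f x * t) - (f x - t * f x * t))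
      ((s * t - t) * (f x * t))
    have b4 := norm_sub_le (s * (f x - t * f x * t)) (f x - t * f x * t)
    linarith

theorem tendsto_right (h : Good E P) {f : Pt →ᵇ M} (hf : f ∈ Alg E P h) :
    Tendsto (fun i => f * eb h i) atTop (𝓝 f) := by
  have h1 := tendsto_left h (star_mem hf)
  have h2 := (continuous_star.tendsto (star f)).comp h1
  rw [star_star] at h2
  refine h2.congr fun i => ?_
  simp only [Function.comp_apply, star_mul, star_star, eb_star]

end approx

section free

/-- a free pair -/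
theorem free_pair (C : K → Set K) (hC : ∀ ξ, (C ξ).Countable) :
    ∃ ξ η : K, ξ ≠ η ∧ η ∉ C ξ ∧ ξ ∉ C η := by
  set S : Set K := (⋃ r : ℝ, C {r}) ∪ Set.range (fun r : ℝ => ({r} : K)) with hS
  have hcard : Cardinal.mk S ≤ Cardinal.continuum := by
    refine (Cardinal.mk_union_le _ _).trans ?_
    have h1 : Cardinal.mk (⋃ r : ℝ, C {r} : Set K) ≤ Cardinal.continuum := by
      refine (Cardinal.mk_iUnion_le _).trans ?_
      have h2 : ⨆ r : ℝ, Cardinal.mk (C ({r} : K)) ≤ Cardinal.aleph0 :=
        ciSup_le' fun r => Cardinal.mk_le_aleph0_iff.2 (hC _).to_subtype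
      calc Cardinal.mk ℝ * ⨆ r : ℝ, Cardinal.mk (C ({r} : K)) ≤
            Cardinal.continuum * Cardinal.aleph0 := by
            rw [Cardinal.mk_real]
            exact mul_le_mul_right h2 _
        _ = Cardinal.continuum := Cardinal.continuum_mul_aleph0
    have h2 : Cardinal.mk (Set.range (fun r : ℝ => ({r} : K))) ≤ Cardinal.continuum := by
      refine Cardinal.mk_range_le.trans ?_
      rw [Cardinal.mk_real]
    calc _ ≤ Cardinal.continuum + Cardinal.continuum := add_le_add h1 h2
      _ = Cardinal.continuum := Cardinal.continuum_add_self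
  obtain ⟨η, hη⟩ : ∃ η : K, η ∉ S := by
    by_contra hcon
    push Not at hcon
    have h1 : S = Set.univ := Set.eq_univ_of_forall hcon
    rw [h1, Cardinal.mk_univ] at hcard
    have h2 : Cardinal.mk K = 2 ^ Cardinal.continuum := by
      rw [Cardinal.mk_set, Cardinal.mk_real]
    rw [h2] at hcard
    exact absurd (Cardinal.cantor Cardinal.continuum) (not_lt.2 hcard)
  obtain ⟨r, hr⟩ : ∃ r : ℝ, ({r} : K) ∉ C η := by
    by_contra hcon
    push Not at hcon
    have h1 : (Set.univ : Set ℝ).Countable := by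
      have h2 : Set.MapsTo (fun r : ℝ => ({r} : K)) Set.univ (C η) := fun r _ => hcon r
      exact h2.countable_of_injOn (fun a _ b _ hab => Set.singleton_injective hab) (hC η)
    exact Set.not_countable_univ h1
  refine ⟨{r}, η, fun hh => hη (Or.inr ⟨r, hh⟩), fun hh => hη (Or.inl ?_), hr⟩
  exact Set.mem_iUnion.2 ⟨r, hh⟩

end free

section neg

variable {M : Type} [CStarAlgebra M] {E : M} {P : ℕ → M}

/-- the generator of `ξ` -/
noncomputable def gen (h : Good E P) (ξ : K) : Pt →ᵇ M := eb h ({ξ}, ∅, 0)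

theorem gen_apply (h : Good E P) (ξ : K) (x : Pt) : gen h ξ x = T E P {ξ} x := by
  unfold gen
  rw [eb_apply]
  unfold ev
  rw [if_neg]
  rintro (h1 | h1)
  · exact absurd h1 (Finset.notMem_empty _)
  · exact absurd h1.2.2 (Nat.not_lt_zero _)

/-- a projection of the algebra which is almost a unit for the generator of `ξ` agrees with this
generator at almost all coordinates. -/
theorem agree (h : Good E P) {q : Pt →ᵇ M} (hq : q ∈ Alg E P h) (hp : ∀ x, IsP (q x)) (ξ : K)
    (h1 : ‖q * gen h ξ - gen h ξ‖ < 1 / 2) : ∃ C : Set K, C.Countable ∧ ∀ η ∉ C, ∀ n,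
      q ⟨ξ, η, n⟩ = E ∧ q ⟨η, ξ, n⟩ = P n := by
  have hk : ∀ k : ℕ, ∃ (F : Finset K) (N : Finset Pt), ∀ x ∉ N,
      ‖q x - T E P F x * q x * T E P F x‖ ≤ 1 / ((k : ℝ) + 2) := fun k =>
    (show Q E P q from hq) _ (by positivity)
  choose F N hN using hk
  refine ⟨{ξ} ∪ ⋃ k : ℕ, ((F k : Set K) ∪ (((N k).image Pt.a : Finset K) : Set K) ∪
    (((N k).image Pt.b : Finset K) : Set K)), ?_, fun η hη n => ?_⟩
  · refine (Set.countable_singleton _).union (Set.countable_iUnion fun k => ?_)
    exact ((Finset.countable_toSet _).union (Finset.countable_toSet _)).union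
      (Finset.countable_toSet _)
  · rw [Set.mem_union, not_or] at hη
    have hne : η ≠ ξ := fun hh => hη.1 hh
    have hη2 : ∀ k, η ∉ F k ∧ (∀ x ∈ N k, x.a ≠ η) ∧ ∀ x ∈ N k, x.b ≠ η := by
      intro k
      refine ⟨fun hh => hη.2 (Set.mem_iUnion.2 ⟨k, Or.inl (Or.inl hh)⟩), fun x hx hxa => ?_,
        fun x hx hxb => ?_⟩
      · exact hη.2 (Set.mem_iUnion.2 ⟨k, Or.inl (Or.inr (by
          rw [Finset.mem_coe, Finset.mem_image]
          exact ⟨x, hx, hxa⟩))⟩)
      · exact hη.2 (Set.mem_iUnion.2 ⟨k, Or.inr (by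
          rw [Finset.mem_coe, Finset.mem_image]
          exact ⟨x, hx, hxb⟩)⟩)
    have hpt : ∀ x : Pt, ‖q x * T E P {ξ} x - T E P {ξ} x‖ < 1 / 2 := by
      intro x
      have h2 := (q * gen h ξ - gen h ξ).norm_coe_le_norm x
      rw [BoundedContinuousFunction.sub_apply, BoundedContinuousFunction.mul_apply,
        gen_apply] at h2
      linarith
    constructor
    · refine eq_of_near h.hE h.E0 (hp _) ?_ fun k => ?_
      · have h2 := hpt ⟨ξ, η, n⟩
        have h3 : T E P {ξ} ⟨ξ, η, n⟩ = E := by
          unfold T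
          rw [if_pos (Finset.mem_singleton_self _)]
        rwa [h3] at h2
      · have h2 := hN k ⟨ξ, η, n⟩ fun hh => (hη2 k).2.2 _ hh rfl
        by_cases hF : ξ ∈ F k
        · left
          have h3 : T E P (F k) ⟨ξ, η, n⟩ = E := by
            unfold T
            rw [if_pos hF]
          rwa [h3] at h2
        · right
          have h3 : T E P (F k) ⟨ξ, η, n⟩ = 0 := by
            unfold T
            rw [if_neg hF, if_neg (hη2 k).1]
          rw [h3] at h2
          simpa using h2
    · refine eq_of_near (h.hP n) (fun hh => h.h1 n (by rw [hh, zero_mul])) (hp _) ?_ fun k => ?_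
      · have h2 := hpt ⟨η, ξ, n⟩
        have h3 : T E P {ξ} ⟨η, ξ, n⟩ = P n := by
          unfold T
          rw [if_neg (fun hh => hne (Finset.mem_singleton.1 hh)),
            if_pos (Finset.mem_singleton_self _)]
        rwa [h3] at h2
      · have h2 := hN k ⟨η, ξ, n⟩ fun hh => (hη2 k).2.1 _ hh rfl
        by_cases hF : ξ ∈ F k
        · left
          have h3 : T E P (F k) ⟨η, ξ, n⟩ = P n := by
            unfold T
            rw [if_neg (hη2 k).1, if_pos hF]
          rwa [h3] at h2
        · right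
          have h3 : T E P (F k) ⟨η, ξ, n⟩ = 0 := by
            unfold T
            rw [if_neg (hη2 k).1, if_neg hF]
          rw [h3] at h2
          simpa using h2

/-- no projection of the algebra is above both `E` and `P n` at the points `(ξ, η, n)`. -/
theorem no_upper (h : Good E P) {r : Pt →ᵇ M} (hr : r ∈ Alg E P h) (hp : ∀ x, IsP (r x))
    (ξ η : K) (h1 : ∀ n, E * r ⟨ξ, η, n⟩ = E) (h2 : ∀ n, P n * r ⟨ξ, η, n⟩ = P n) : False := by
  obtain ⟨F, N, k⟩ := (show Q E P r from hr) (1 / 4) (by norm_num)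
  obtain ⟨n, hn⟩ : ∃ n : ℕ, (⟨ξ, η, n⟩ : Pt) ∉ N := by
    by_contra hcon
    push Not at hcon
    have h3 : (Set.range fun n : ℕ => (⟨ξ, η, n⟩ : Pt)).Finite :=
      (Finset.finite_toSet N).subset (by rintro _ ⟨n, rfl⟩; exact hcon n)
    exact Set.infinite_range_of_injective (fun a b hab => by
      have := congrArg Pt.n hab
      exact this) h3
  have hk := k _ hn
  have h3 := h1 n
  have h4 := h2 n
  set x : Pt := ⟨ξ, η, n⟩ with hx
  have hT := isP_T h F x
  have hcases : T E P F x = E ∨ T E P F x = P n ∨ T E P F x = 0 := by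
    unfold T
    split_ifs
    · exact Or.inl rfl
    · exact Or.inr (Or.inl rfl)
    · exact Or.inr (Or.inr rfl)
  set t := T E P F x with ht
  have htr : t * r x = t := by
    rcases hcases with h5 | h5 | h5
    · rw [h5]; exact h3
    · rw [h5]; exact h4
    · rw [h5]; simp
  have hrt : r x * t = t := by
    have h5 := congrArg star htr
    rw [star_mul, hT.2, (hp x).2] at h5
    exact h5
  rw [htr, hT.1] at hk
  have h6 : r x - t = 0 := by
    refine idem_small ?_ (by linarith)
    rw [mul_sub, sub_mul, sub_mul, (hp x).1, htr, hrt, hT.1]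
    simp
  have h7 : r x = t := sub_eq_zero.1 h6
  rw [h7] at h3 h4
  rcases hcases with h5 | h5 | h5
  · rw [h5] at h4
    exact h.h1 n h4
  · rw [h5] at h3
    exact h.h2 n h3
  · rw [h5, mul_zero] at h3
    exact h.E0 h3.symm

end neg

end Pool.Agent.Q255.AI
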