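import Pool.Agent.Q255.AI.B

/-!
# A C*-algebra with an approximate identity of projections but no increasing one (library)
-/

set_option autoImplicit false

namespace Pool.Agent.Q255.AI

open Filter Topology Classical
open scoped BoundedContinuousFunction Matrix.Norms.L2Operator

/-- the angle -/
noncomputable def tt (n : ℕ) : ℝ := 1 / ((n : ℝ) + 1)

theorem tt_pos (n : ℕ) : 0 < tt n := by unfold tt; positivity

theorem tt_lim : Tendsto tt atTop (𝓝 0) := tendsto_one_div_add_atTop_nhds_zero_nat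

/-- `2 × 2` matrices -/
abbrev M2 : Type := Matrix (Fin 2) (Fin 2) ℂ

/-- the limit projection -/
noncomputable def E2 : M2 := !![1, 0; 0, 0]

/-- the projections -/
noncomputable def P2 (n : ℕ) : M2 :=
  !![((1 / (1 + tt n ^ 2) : ℝ) : ℂ), ((tt n / (1 + tt n ^ 2) : ℝ) : ℂ);
    ((tt n / (1 + tt n ^ 2) : ℝ) : ℂ), ((tt n ^ 2 / (1 + tt n ^ 2) : ℝ) : ℂ)]

theorem good2 : Good E2 P2 where
  hE := by
    constructor
    · ext i j
      fin_cases i <;> fin_cases j <;> simp [E2, Matrix.mul_apply, Fin.sum_univ_two]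
    · ext i j
      fin_cases i <;> fin_cases j <;> simp [E2, Matrix.star_apply]
  hP := by
    intro n
    have h0 : (0 : ℝ) < 1 + tt n ^ 2 := by positivity
    constructor
    · ext i j
      fin_cases i <;> fin_cases j <;>
        simp only [P2, Matrix.mul_apply, Fin.sum_univ_two, Matrix.cons_val', Matrix.cons_val_zero,
          Matrix.cons_val_one, Matrix.of_apply, Fin.zero_eta, Fin.mk_one, Matrix.cons_val_fin_one,
          ← Complex.ofReal_mul, ← Complex.ofReal_add] <;> congr 1 <;> field_simp <;> ring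
    · ext i j
      fin_cases i <;> fin_cases j <;> simp [P2, Matrix.star_apply]
  lim := by
    have hl := tt_lim
    have h1 : Tendsto (fun n => (1 : ℝ) + tt n ^ 2) atTop (𝓝 (1 + 0 ^ 2)) :=
      tendsto_const_nhds.add (hl.pow 2)
    have h2 : Tendsto (fun n => (1 : ℝ) / (1 + tt n ^ 2)) atTop (𝓝 (1 / (1 + 0 ^ 2))) :=
      tendsto_const_nhds.div h1 (by norm_num)
    have h3 : Tendsto (fun n => tt n / (1 + tt n ^ 2)) atTop (𝓝 (0 / (1 + 0 ^ 2))) :=
      hl.div h1 (by norm_num)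
    have h4 : Tendsto (fun n => tt n ^ 2 / (1 + tt n ^ 2)) atTop (𝓝 (0 ^ 2 / (1 + 0 ^ 2))) :=
      (hl.pow 2).div h1 (by norm_num)
    have c2 := (Complex.continuous_ofReal.tendsto _).comp h2
    have c3 := (Complex.continuous_ofReal.tendsto _).comp h3
    have c4 := (Complex.continuous_ofReal.tendsto _).comp h4
    refine tendsto_pi_nhds.2 fun i => tendsto_pi_nhds.2 fun j => ?_
    fin_cases i <;> fin_cases j
    · simpa [E2, P2, Function.comp_def] using c2
    · simpa [E2, P2, Function.comp_def] using c3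
    · simpa [E2, P2, Function.comp_def] using c3
    · simpa [E2, P2, Function.comp_def] using c4
  E0 := by
    intro h
    have h1 := congrFun (congrFun h 0) 0
    simp [E2] at h1
  h1 := by
    intro n h
    have h1 := congrFun (congrFun h 1) 1
    have h0 : (0 : ℝ) < tt n ^ 2 / (1 + tt n ^ 2) := by
      have := tt_pos n
      positivity
    simp only [E2, P2, Matrix.mul_apply, Fin.sum_univ_two, Matrix.of_apply, Matrix.cons_val',
      Matrix.cons_val_zero, Matrix.cons_val_one, Matrix.cons_val_fin_one, mul_zero, add_zero] at h1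
    have h2 := Complex.ofReal_eq_zero.1 h1.symm
    linarith
  h2 := by
    intro n h
    have h1 := congrFun (congrFun h 0) 1
    have h0 : (0 : ℝ) < tt n / (1 + tt n ^ 2) := by
      have := tt_pos n
      positivity
    simp only [E2, P2, Matrix.mul_apply, Fin.sum_univ_two, Matrix.of_apply, Matrix.cons_val',
      Matrix.cons_val_zero, Matrix.cons_val_one, Matrix.cons_val_fin_one, one_mul, zero_mul,
      add_zero] at h1
    have h2 := Complex.ofReal_eq_zero.1 h1
    linarith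

/-- The main theorem: the algebra has an approximate identity consisting of projections, but no
increasing one. -/
theorem main {M : Type} [CStarAlgebra M] {E : M} {P : ℕ → M} (h : Good E P) :
    (∃ e : (Finset K × Finset Pt × ℕ) → Alg E P h,
      (∀ i, IsIdempotentElem (e i) ∧ IsSelfAdjoint (e i)) ∧
      ∀ a : Alg E P h, Tendsto (fun i => e i * a) atTop (𝓝 a) ∧
        Tendsto (fun i => a * e i) atTop (𝓝 a)) ∧
    ¬ ∃ (Λ : Type) (_ : Preorder Λ) (_ : IsDirected Λ (· ≤ ·)) (_ : Nonempty Λ)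
      (e : Λ → Alg E P h),
      (∀ i, IsIdempotentElem (e i) ∧ IsSelfAdjoint (e i)) ∧
      (∀ i j, i ≤ j → e i * e j = e i) ∧
      ∀ a : Alg E P h, Tendsto (fun i => e i * a) atTop (𝓝 a) ∧
        Tendsto (fun i => a * e i) atTop (𝓝 a) := by
  constructor
  · refine ⟨fun i => ⟨eb h i, eb_mem h i⟩, fun i => ⟨?_, ?_⟩, fun a => ⟨?_, ?_⟩⟩
    · exact Subtype.ext (eb_idem h i)
    · exact Subtype.ext (eb_star h i)
    · exact tendsto_subtype_rng.2 (tendsto_left h a.2)
    · exact tendsto_subtype_rng.2 (tendsto_right h a.2)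
  · rintro ⟨Λ, _, _, _, e, hp, hmono, hlim⟩
    have hpx : ∀ i x, IsP ((e i : Pt →ᵇ M) x) := by
      intro i x
      constructor
      · have h1 := congrArg (fun a : Alg E P h => (a : Pt →ᵇ M) x) (hp i).1
        exact h1
      · have h1 := congrArg (fun a : Alg E P h => (a : Pt →ᵇ M) x) (hp i).2
        exact h1
    have hlam : ∀ ξ : K, ∃ i, ‖(e i : Pt →ᵇ M) * gen h ξ - gen h ξ‖ < 1 / 2 := by
      intro ξ
      have h1 := (hlim ⟨gen h ξ, eb_mem h _⟩).1
      rw [Metric.tendsto_nhds] at h1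
      obtain ⟨i, hi⟩ := (h1 (1 / 2) (by norm_num)).exists
      refine ⟨i, ?_⟩
      rw [dist_eq_norm] at hi
      exact hi
    choose lam hlam using hlam
    have hC := fun ξ => agree h (e (lam ξ)).2 (hpx _) ξ (hlam ξ)
    choose C hCc hC using hC
    obtain ⟨ξ, η, -, h1, h2⟩ := free_pair C hCc
    obtain ⟨μ, hμ1, hμ2⟩ := exists_ge_ge (lam ξ) (lam η)
    have m1 := hmono _ _ hμ1
    have m2 := hmono _ _ hμ2
    refine no_upper h (e μ).2 (hpx μ) ξ η (fun n => ?_) fun n => ?_
    · have h3 := congrArg (fun a : Alg E P h => (a : Pt →ᵇ M) ⟨ξ, η, n⟩) m1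
      have h4 : (e (lam ξ) : Pt →ᵇ M) ⟨ξ, η, n⟩ * (e μ : Pt →ᵇ M) ⟨ξ, η, n⟩ =
        (e (lam ξ) : Pt →ᵇ M) ⟨ξ, η, n⟩ := h3
      rw [(hC ξ η h1 n).1] at h4
      exact h4
    · have h3 := congrArg (fun a : Alg E P h => (a : Pt →ᵇ M) ⟨ξ, η, n⟩) m2
      have h4 : (e (lam η) : Pt →ᵇ M) ⟨ξ, η, n⟩ * (e μ : Pt →ᵇ M) ⟨ξ, η, n⟩ =
        (e (lam η) : Pt →ᵇ M) ⟨ξ, η, n⟩ := h3
      rw [(hC η ξ h2 n).2] at h4
      exact h4

/-- the algebra is a C*-algebra -/
theorem exists_algebra : ∃ (A : Type) (_ : NonUnitalCStarAlgebra A),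
    (∃ (Λ : Type) (_ : Preorder Λ) (_ : IsDirected Λ (· ≤ ·)) (_ : Nonempty Λ) (e : Λ → A),
        (∀ i, IsIdempotentElem (e i) ∧ IsSelfAdjoint (e i)) ∧
        ∀ a : A, Tendsto (fun i => e i * a) atTop (𝓝 a) ∧
          Tendsto (fun i => a * e i) atTop (𝓝 a)) ∧
    ¬ (∃ (Λ : Type) (_ : Preorder Λ) (_ : IsDirected Λ (· ≤ ·)) (_ : Nonempty Λ) (e : Λ → A),
        (∀ i, IsIdempotentElem (e i) ∧ IsSelfAdjoint (e i)) ∧
        (∀ i j, i ≤ j → e i * e j = e i) ∧
        ∀ a : A, Tendsto (fun i => e i * a) atTop (𝓝 a) ∧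
          Tendsto (fun i => a * e i) atTop (𝓝 a)) := by
  haveI hc : IsClosed (Alg E2 P2 good2 : Set (Pt →ᵇ M2)) := isClosed_alg _
  obtain ⟨⟨e, he⟩, hno⟩ := main good2
  exact ⟨Alg E2 P2 good2, inferInstance, ⟨_, inferInstance, inferInstance, inferInstance, e, he⟩,
    hno⟩

end Pool.Agent.Q255.AI
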